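import Pool.Agent.Helper87.ND.MOLG

namespace Pool.Agent.Helper87.ND.MOLD
open MeasureTheory Set Filter Topology Pool.Agent.Helper28.ND Pool.Agent.Helper87.ND.MOLG
open scoped ENNReal NNReal Convolution

noncomputable section

variable {d : ℕ}

/-- The derivative in the direction `v`. -/
def dv (v : ℝ × (Fin d → ℝ)) (r : ℝ × (Fin d → ℝ) → ℝ) : ℝ × (Fin d → ℝ) → ℝ :=
  fun w => fderiv ℝ r w v

lemma dv_smooth {r : ℝ × (Fin d → ℝ) → ℝ} (h : ContDiff ℝ (⊤ : ℕ∞) r) (v : ℝ × (Fin d → ℝ)) :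
    ContDiff ℝ (⊤ : ℕ∞) (dv v r) := by
  have h1 : ContDiff ℝ (⊤ : ℕ∞) (fderiv ℝ r) := h.fderiv_right (by simp)
  exact h1.clm_apply contDiff_const

lemma dv_cs {r : ℝ × (Fin d → ℝ) → ℝ} (h : HasCompactSupport r) (v : ℝ × (Fin d → ℝ)) :
    HasCompactSupport (dv v r) := h.fderiv_apply ℝ v

/-- The convolution with `U D`. -/
def cv (r : ℝ × (Fin d → ℝ) → ℝ) (D : ℝ → (Fin d → ℝ) → ℝ) : ℝ × (Fin d → ℝ) → ℝ :=
  r ⋆[ContinuousLinearMap.lsmul ℝ ℝ, volume] (U D)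

lemma cv_diff {r : ℝ × (Fin d → ℝ) → ℝ} (hr : ContDiff ℝ (⊤ : ℕ∞) r) (hc : HasCompactSupport r)
    {D : ℝ → (Fin d → ℝ) → ℝ} (hD : BMP D) : Differentiable ℝ (cv r D) := by
  have : ContDiff ℝ (⊤ : ℕ∞) (cv r D) := hc.contDiff_convolution_left _ hr (locInt hD)
  exact this.differentiable (by simp)

lemma cv_dv {r : ℝ × (Fin d → ℝ) → ℝ} (hr : ContDiff ℝ (⊤ : ℕ∞) r) (hc : HasCompactSupport r)
    {D : ℝ → (Fin d → ℝ) → ℝ} (hD : BMP D) (v z : ℝ × (Fin d → ℝ)) :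
    fderiv ℝ (cv r D) z v = cv (dv v r) D z := by
  have h1 := hc.hasFDerivAt_convolution_right
    (ContinuousLinearMap.lsmul ℝ ℝ : ℝ →L[ℝ] ℝ →L[ℝ] ℝ).flip
    (μ := (volume : Measure (ℝ × (Fin d → ℝ)))) (locInt hD) (hr.of_le (by simp)) z
  rw [convolution_flip] at h1
  have h2 : fderiv ℝ (cv r D) z = _ := h1.fderiv
  rw [h2, convolution_precompR_apply _ (locInt hD) (hc.fderiv ℝ)
    ((hr.of_le (by simp : (1 : WithTop ℕ∞) ≤ ((⊤ : ℕ∞) : WithTop ℕ∞))).continuous_fderiv one_ne_zero),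
    convolution_flip]
  rfl

lemma cv_swap (r : ℝ × (Fin d → ℝ) → ℝ) (D : ℝ → (Fin d → ℝ) → ℝ) (z : ℝ × (Fin d → ℝ)) :
    cv r D z = ∫ w, U D w * r (z - w) := by
  unfold cv
  rw [convolution_eq_swap]
  refine integral_congr_ae (Eventually.of_forall fun w => ?_)
  simp [mul_comm]

lemma pd_slice {G : ℝ × (Fin d → ℝ) → ℝ} (hG : Differentiable ℝ G) (t : ℝ) (i : Fin d)
    (x : Fin d → ℝ) : pd i (fun y => G (t, y)) x = fderiv ℝ G (t, x) (0, Pi.single i 1) := by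
  unfold pd
  have h1 : HasFDerivAt (fun y : Fin d → ℝ => ((t, y) : ℝ × (Fin d → ℝ)))
      (ContinuousLinearMap.inr ℝ ℝ (Fin d → ℝ)) x := hasFDerivAt_prodMk_right t x
  have h2 := (hG (t, x)).hasFDerivAt.comp x h1
  have h3 : fderiv ℝ (fun y => G (t, y)) x
    = (fderiv ℝ G (t, x)).comp (ContinuousLinearMap.inr ℝ ℝ (Fin d → ℝ)) := h2.fderiv
  rw [h3]
  simp

lemma dt_slice {G : ℝ × (Fin d → ℝ) → ℝ} (hG : Differentiable ℝ G) (t : ℝ)
    (x : Fin d → ℝ) : deriv (fun s => G (s, x)) t = fderiv ℝ G (t, x) (1, 0) := by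
  have h1 : HasFDerivAt (fun s : ℝ => ((s, x) : ℝ × (Fin d → ℝ)))
      (ContinuousLinearMap.inl ℝ ℝ (Fin d → ℝ)) t := hasFDerivAt_prodMk_left t x
  have h2 := (hG (t, x)).hasFDerivAt.comp t h1
  have h3 := h2.hasDerivAt.deriv
  rw [show (G ∘ fun s : ℝ => ((s, x) : ℝ × (Fin d → ℝ))) = fun s => G (s, x) from rfl] at h3
  rw [h3]
  simp

/-- The reflected function. -/
def rf (r : ℝ × (Fin d → ℝ) → ℝ) (z0 z : ℝ × (Fin d → ℝ)) : ℝ := r (z0 - z)

lemma rf_smooth {r : ℝ × (Fin d → ℝ) → ℝ} (hr : ContDiff ℝ (⊤ : ℕ∞) r) (z0 : ℝ × (Fin d → ℝ)) :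
    ContDiff ℝ (⊤ : ℕ∞) (rf r z0) := hr.comp (contDiff_const.sub contDiff_id)

lemma rf_dv {r : ℝ × (Fin d → ℝ) → ℝ} (hr : ContDiff ℝ (⊤ : ℕ∞) r) (z0 z v : ℝ × (Fin d → ℝ)) :
    fderiv ℝ (rf r z0) z v = - rf (dv v r) z0 z := by
  have h1 : HasFDerivAt (fun y : ℝ × (Fin d → ℝ) => z0 - y)
      (-(ContinuousLinearMap.id ℝ (ℝ × (Fin d → ℝ)))) z := by
    simpa using (hasFDerivAt_id z).const_sub z0
  have h2 := ((hr.differentiable (by simp)) (z0 - z)).hasFDerivAt.comp z h1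
  have h3 : fderiv ℝ (rf r z0) z = _ := h2.fderiv
  rw [h3]
  simp [rf, dv]

/-- The test function. -/
def tf (n : ℕ) (t : ℝ) (x : Fin d → ℝ) (s : ℝ) (y : Fin d → ℝ) : ℝ := rf (eta d n) (t, x) (s, y)

lemma tf_CC (n : ℕ) (t : ℝ) (x : Fin d → ℝ) (ht : 1 / (4 * ((n : ℝ) + 1)) < t) :
    CC (tf n t x) := by
  refine ⟨rf_smooth (eta_smooth d n) (t, x), ?_, ?_⟩
  · have h := (eta_cs d n).comp_homeomorph (Homeomorph.subLeft ((t, x) : ℝ × (Fin d → ℝ)))
    exact h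
  · intro s hs y
    unfold tf rf
    apply eta_zero
    simp only [Prod.mk_sub_mk]
    have := le_abs_self (t - s)
    linarith

lemma fd_neg (f : ℝ × (Fin d → ℝ) → ℝ) (z v : ℝ × (Fin d → ℝ)) :
    fderiv ℝ (fun w => - f w) z v = - fderiv ℝ f z v := by
  rw [fderiv_fun_neg]; simp

lemma tf_pd (n : ℕ) (t : ℝ) (x : Fin d → ℝ) (i : Fin d) (s : ℝ) (y : Fin d → ℝ) :
    pd i (tf n t x s) y = - rf (dv (0, Pi.single i 1) (eta d n)) (t, x) (s, y) := by
  have h1 := pd_slice ((rf_smooth (eta_smooth d n) (t, x)).differentiable (by simp)) s i y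
  rw [rf_dv (eta_smooth d n)] at h1
  exact h1

lemma tf_pd2 (n : ℕ) (t : ℝ) (x : Fin d → ℝ) (i : Fin d) (s : ℝ) (y : Fin d → ℝ) :
    pd i (pd i (tf n t x s)) y
      = rf (dv (0, Pi.single i 1) (dv (0, Pi.single i 1) (eta d n))) (t, x) (s, y) := by
  have h0 : pd i (tf n t x s)
    = fun y => - rf (dv (0, Pi.single i 1) (eta d n)) (t, x) (s, y) := by
    funext y; exact tf_pd n t x i s y
  rw [h0]
  have hs := dv_smooth (eta_smooth d n) (0, Pi.single i 1)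
  have h1 := pd_slice (G := fun w => - rf (dv (0, Pi.single i 1) (eta d n)) (t, x) w)
    (((rf_smooth hs (t, x)).neg).differentiable (by simp)) s i y
  rw [fd_neg, rf_dv hs, neg_neg] at h1
  exact h1

lemma tf_dt (n : ℕ) (t : ℝ) (x : Fin d → ℝ) (s : ℝ) (y : Fin d → ℝ) :
    dt (tf n t x) s y = - rf (dv (1, 0) (eta d n)) (t, x) (s, y) := by
  have h1 := dt_slice ((rf_smooth (eta_smooth d n) (t, x)).differentiable (by simp)) s y
  rw [rf_dv (eta_smooth d n)] at h1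
  exact h1

lemma mol_cv (n : ℕ) (D : ℝ → (Fin d → ℝ) → ℝ) (t : ℝ) (x : Fin d → ℝ) :
    mol n D t x = cv (eta d n) D (t, x) := by
  have := congrFun (mol_eq n D) (t, x)
  exact this

lemma mol_pd {D : ℝ → (Fin d → ℝ) → ℝ} (hD : BMP D) (n : ℕ) (t : ℝ) (x : Fin d → ℝ) (i : Fin d) :
    pd i (mol n D t) x = cv (dv (0, Pi.single i 1) (eta d n)) D (t, x) := by
  have h1 := pd_slice (cv_diff (eta_smooth d n) (eta_cs d n) hD) t i x
  rw [cv_dv (eta_smooth d n) (eta_cs d n) hD] at h1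
  exact h1

lemma mol_pd2 {D : ℝ → (Fin d → ℝ) → ℝ} (hD : BMP D) (n : ℕ) (t : ℝ) (x : Fin d → ℝ)
    (i : Fin d) : pd i (pd i (mol n D t)) x
      = cv (dv (0, Pi.single i 1) (dv (0, Pi.single i 1) (eta d n))) D (t, x) := by
  have h0 : pd i (mol n D t) = fun x => cv (dv (0, Pi.single i 1) (eta d n)) D (t, x) := by
    funext x; exact mol_pd hD n t x i
  rw [h0]
  have hs := dv_smooth (eta_smooth d n) (0, Pi.single i 1)
  have hc := dv_cs (eta_cs d n) (0, Pi.single i 1)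
  have h1 := pd_slice (cv_diff hs hc hD) t i x
  rw [cv_dv hs hc hD] at h1
  exact h1

lemma mol_dt {D : ℝ → (Fin d → ℝ) → ℝ} (hD : BMP D) (n : ℕ) (t : ℝ) (x : Fin d → ℝ) :
    dt (mol n D) t x = cv (dv (1, 0) (eta d n)) D (t, x) := by
  have h1 := dt_slice (cv_diff (eta_smooth d n) (eta_cs d n) hD) t x
  rw [cv_dv (eta_smooth d n) (eta_cs d n) hD] at h1
  exact h1

/-- Integrability of `U D` times a reflected smooth compactly supported function. -/
lemma int_rf {D : ℝ → (Fin d → ℝ) → ℝ} (hD : BMP D) {r : ℝ × (Fin d → ℝ) → ℝ}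
    (hr : ContDiff ℝ (⊤ : ℕ∞) r) (hc : HasCompactSupport r) (z0 : ℝ × (Fin d → ℝ)) :
    Integrable (fun z => U D z * rf r z0 z) := by
  obtain ⟨B, hB⟩ := hD.bdd
  have h1 : Integrable (rf r z0) :=
    (rf_smooth hr z0).continuous.integrable_of_hasCompactSupport
      (hc.comp_homeomorph (Homeomorph.subLeft z0))
  exact h1.bdd_mul (c := B) hD.meas.aestronglyMeasurable
    (Eventually.of_forall fun w => by simpa [U, Real.norm_eq_abs] using hB w.1 w.2)

theorem main : S_MOLD := by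
  intro d D F hD hF
  refine ⟨?_, ?_⟩
  · intro h n t x ht
    have h1 := h (tf n t x) (tf_CC n t x ht)
    have h2 : ∫ z : ℝ × (Fin d → ℝ), U F z * U (tf n t x) z = mol n F t x := by
      rw [mol_cv, cv_swap]
      rfl
    rw [h2] at h1
    rw [← h1, mol_dt hD]
    have h3 : lap (mol n D t) x = ∑ i : Fin d,
      cv (dv (0, Pi.single i 1) (dv (0, Pi.single i 1) (eta d n))) D (t, x) := by
      unfold lap
      exact Finset.sum_congr rfl fun i _ => mol_pd2 hD n t x i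
    rw [h3, cv_swap, Finset.sum_congr rfl (fun i _ => cv_swap _ D (t, x)),
      ← integral_finset_sum, ← integral_add]
    · refine integral_congr_ae (Eventually.of_forall fun z => ?_)
      have h4 : lap (tf n t x z.1) z.2 = ∑ i : Fin d,
        rf (dv (0, Pi.single i 1) (dv (0, Pi.single i 1) (eta d n))) (t, x) (z.1, z.2) := by
        unfold lap
        exact Finset.sum_congr rfl fun i _ => tf_pd2 n t x i z.1 z.2
      simp only
      rw [h4, tf_dt, sub_neg_eq_add, mul_add, Finset.mul_sum, add_comm]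
      rfl
    · exact int_rf hD (dv_smooth (eta_smooth d n) _) (dv_cs (eta_cs d n) _) (t, x)
    · exact integrable_finset_sum _ fun i _ => int_rf hD
        (dv_smooth (dv_smooth (eta_smooth d n) _) _) (dv_cs (dv_cs (eta_cs d n) _) _) (t, x)
    · exact fun i _ => int_rf hD
        (dv_smooth (dv_smooth (eta_smooth d n) _) _) (dv_cs (dv_cs (eta_cs d n) _) _) (t, x)
  · intro i h n t x ht
    have h1 := h (tf n t x) (tf_CC n t x ht)
    have h2 : ∫ z : ℝ × (Fin d → ℝ), U F z * U (tf n t x) z = mol n F t x := by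
      rw [mol_cv, cv_swap]
      rfl
    rw [h2] at h1
    rw [mol_pd hD, cv_swap, ← neg_neg (mol n F t x), ← h1, ← integral_neg]
    refine integral_congr_ae (Eventually.of_forall fun z => ?_)
    simp only
    rw [tf_pd, mul_neg, neg_neg]
    rfl

end

end Pool.Agent.Helper87.ND.MOLD
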