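import Pool.Agent.Helper28.ND.Spec

namespace Pool.Agent.Helper87.ND.MOLG
open MeasureTheory Set Filter Topology Pool.Agent.Helper28.ND
open scoped ENNReal NNReal Convolution

noncomputable section

variable {d : ℕ}

instance haarE (d : ℕ) : (volume : Measure (ℝ × (Fin d → ℝ))).IsAddHaarMeasure := by
  rw [Measure.volume_eq_prod]
  infer_instance

lemma locInt {D : ℝ → (Fin d → ℝ) → ℝ} (hD : BMP D) :
    LocallyIntegrable (U D) (volume : Measure (ℝ × (Fin d → ℝ))) := by
  obtain ⟨B, hB⟩ := hD.bdd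
  have h : MemLp (U D) ⊤ (volume : Measure (ℝ × (Fin d → ℝ))) :=
    memLp_top_of_bound hD.meas.aestronglyMeasurable B
      (Eventually.of_forall fun z => by simpa [U, Real.norm_eq_abs] using hB z.1 z.2)
  exact h.locallyIntegrable le_top

/-- The normalized bump. -/
def eta (d n : ℕ) : ℝ × (Fin d → ℝ) → ℝ := (bmp d n).normed volume

lemma eta_smooth (d n : ℕ) : ContDiff ℝ (⊤ : ℕ∞) (eta d n) := (bmp d n).contDiff_normed

lemma eta_cs (d n : ℕ) : HasCompactSupport (eta d n) := (bmp d n).hasCompactSupport_normed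

lemma eta_nonneg (d n : ℕ) (w : ℝ × (Fin d → ℝ)) : 0 ≤ eta d n w := (bmp d n).nonneg_normed w

lemma eta_int (d n : ℕ) : ∫ w, eta d n w = 1 := (bmp d n).integral_normed

lemma eta_integrable (d n : ℕ) : Integrable (eta d n) volume := (bmp d n).integrable_normed

lemma eta_zero {d n : ℕ} {w : ℝ × (Fin d → ℝ)} (h : 1 / (4 * ((n : ℝ) + 1)) ≤ |w.1|) :
    eta d n w = 0 := by
  by_contra hne
  have h1 : w ∈ Function.support (eta d n) := hne
  have h2 : w ∈ Metric.ball (0 : ℝ × (Fin d → ℝ)) (bmp d n).rOut := by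
    have := (bmp d n).support_normed_eq (μ := (volume : Measure (ℝ × (Fin d → ℝ))))
    rw [← this]; exact h1
  rw [mem_ball_zero_iff] at h2
  have h3 : ‖w.1‖ ≤ ‖w‖ := norm_fst_le w
  rw [Real.norm_eq_abs] at h3
  have h4 : (bmp d n).rOut = 1 / (4 * ((n : ℝ) + 1)) := rfl
  linarith

lemma mol_eq (n : ℕ) (D : ℝ → (Fin d → ℝ) → ℝ) :
    U (mol n D) = (eta d n) ⋆[ContinuousLinearMap.lsmul ℝ ℝ, volume] (U D) := by
  funext z
  rfl

lemma smoothPer {D : ℝ → (Fin d → ℝ) → ℝ} (hD : BMP D) (n : ℕ) : SmoothPer (mol n D) := by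
  constructor
  · rw [mol_eq]
    exact (eta_cs d n).contDiff_convolution_left _ (eta_smooth d n) (locInt hD)
  · intro t x k
    unfold mol
    refine integral_congr_ae (Eventually.of_forall fun w => ?_)
    have := hD.per (t - w.1) (x - w.2) k
    simp only
    rw [← this]
    congr 2
    funext i
    simp only [Pi.sub_apply]
    ring

lemma ae_sub {P : ℝ × (Fin d → ℝ) → Prop} (hP : ∀ᵐ z : ℝ × (Fin d → ℝ), P z)
    (a : ℝ × (Fin d → ℝ)) : ∀ᵐ w : ℝ × (Fin d → ℝ), P (a - w) :=
  (Measure.measurePreserving_sub_left (volume : Measure (ℝ × (Fin d → ℝ))) a).quasiMeasurePreserving.ae hP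

lemma integ {D : ℝ → (Fin d → ℝ) → ℝ} (hD : BMP D) (n : ℕ) (t : ℝ) (x : Fin d → ℝ) :
    Integrable (fun w : ℝ × (Fin d → ℝ) => eta d n w * D (t - w.1) (x - w.2)) := by
  obtain ⟨B, hB⟩ := hD.bdd
  refine (eta_integrable d n).mul_bdd (c := B) ?_ ?_
  · have : Measurable (fun w : ℝ × (Fin d → ℝ) => U D ((t, x) - w)) :=
      hD.meas.comp (measurable_const.sub measurable_id)
    exact this.aestronglyMeasurable
  · exact Eventually.of_forall fun w => by simpa [Real.norm_eq_abs] using hB _ _

theorem main : S_MOLG := by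
  intro d D hD
  refine ⟨fun n => smoothPer hD n, ?_, ?_, ?_⟩
  · intro B hB n t x ht
    have h1 := ae_sub hB (t, x)
    have h2 : ∀ᵐ w : ℝ × (Fin d → ℝ), ‖eta d n w * D (t - w.1) (x - w.2)‖ ≤ eta d n w * B := by
      filter_upwards [h1] with w hw
      by_cases hc : 1 / (4 * ((n : ℝ) + 1)) ≤ |w.1|
      · rw [eta_zero hc]; simp
      · push Not at hc
        have h3 : 0 < ((t, x) - w).1 := by
          simp only [Prod.fst_sub]
          have := le_abs_self w.1
          linarith
        have h4 := hw h3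
        rw [norm_mul, Real.norm_of_nonneg (eta_nonneg d n w), Real.norm_eq_abs]
        exact mul_le_mul_of_nonneg_left h4 (eta_nonneg d n w)
    have h5 := norm_integral_le_of_norm_le ((eta_integrable d n).mul_const B) h2
    rw [integral_mul_const, eta_int, one_mul, Real.norm_eq_abs] at h5
    exact h5
  · have h := ContDiffBump.ae_convolution_tendsto_right_of_locallyIntegrable
      (φ := fun n : ℕ => bmp d n) (l := atTop) (K := 2) (μ := (volume : Measure (ℝ × (Fin d → ℝ))))
      (g := U D) ?_ ?_ (locInt hD)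
    · exact h
    · have h1 : Tendsto (fun n : ℕ => (1 : ℝ) / ((n : ℝ) + 1)) atTop (𝓝 0) :=
        tendsto_one_div_add_atTop_nhds_zero_nat
      have h2 := h1.const_mul (1 / 4 : ℝ)
      rw [mul_zero] at h2
      refine h2.congr fun n => ?_
      change _ = 1 / (4 * ((n : ℝ) + 1))
      have : (n : ℝ) + 1 ≠ 0 := by positivity
      field_simp
    · refine Eventually.of_forall fun n => ?_
      change 1 / (4 * ((n : ℝ) + 1)) ≤ 2 * (1 / (8 * ((n : ℝ) + 1)))
      have : (n : ℝ) + 1 ≠ 0 := by positivity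
      apply le_of_eq
      field_simp
      norm_num
  · intro S hS n t ht x
    unfold mol
    have : ∀ w : ℝ × (Fin d → ℝ), eta d n w * D (t - w.1) (x - w.2) = 0 := by
      intro w
      by_cases hc : 1 / (4 * ((n : ℝ) + 1)) ≤ |w.1|
      · rw [eta_zero hc]; simp
      · push Not at hc
        rw [hS (t - w.1) (by have := le_abs_self w.1; linarith)]
        simp
    change ∫ w : ℝ × (Fin d → ℝ), eta d n w * D (t - w.1) (x - w.2) = 0
    simp only [this, integral_zero]

end

end Pool.Agent.Helper87.ND.MOLG
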