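import Pool.Agent.Helper87.ND.REa

/-!
# ND2, part RE1
-/

namespace Pool.Agent.Helper87.ND.RE1
open Pool.Agent.Helper28.ND Pool.Agent.Helper87.ND.RE
open MeasureTheory Set Filter Topology

noncomputable section

/-- The bound with a general factor. -/
lemma sup_bound (hSUB : S_SUB) (g : GF) (hFREG : S_FREG)
    {T : ℝ} {b : ℝ → (Fin 2 → ℝ) → (Fin 2 → ℝ)} {f : ℝ → (Fin 2 → ℝ) → ℝ}
    {u : ℝ → (Fin 2 → ℝ) → ℝ} {v : ℝ → (Fin 2 → ℝ) → (Fin 2 → ℝ)} (hS : Sit T b f u v)
    {s m : ℝ} (hs : 0 ≤ s) (hsm : s < m) (hm : m ≤ T) (h9 : 9 * (m - s) < 1 / 64)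
    (hz : ∀ r x, s < r → r < m → f r x = 0 ∧ ∀ i, b r x i = 0)
    {R c : ℝ} (hR : 0 < R) (hc : 1 ≤ c) (hRc : R ≤ 3 * c * Real.sqrt (m - s)) :
    ∫ x in Q4, u m x ≤ c * ∫ x in Q4, u s x * Gp (x 0 / R) := by
  have hd : Differentiable ℝ Gp := g.cd.differentiable (by norm_num)
  -- for small ε
  have hstep : ∀ ε : ℝ, 0 < ε → ε < (1 / 64 - 9 * (m - s)) / 36 →
      ∫ x in Q4, u m x * Gp (x 0 / (3 * Real.sqrt ε)) ≤ c * ∫ x in Q4, u s x * Gp (x 0 / R) := by
    intro ε hε hε2
    set H : ℝ → ℝ → ℝ := fun r y => SS (m + ε) r y with hH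
    have hT4 : T4L s m (loc s m (ε / 2) H) := by
      apply loc_T4L (by linarith)
      · exact SS_cd g (by linarith)
      · intro r _ _
        simp only [hH, SS, zero_div]
        exact g.z
      · intro r hr1 hr2 y hy
        have hlt : r < m + ε := by linarith
        have hle : 3 * Real.sqrt (m + ε - r) ≤ 1 / 8 := by
          have h1 : 0 < m + ε - r := by linarith
          have h2 : m + ε - r ≤ (1 / 24) ^ 2 := by nlinarith
          have h3 : Real.sqrt (m + ε - r) ≤ 1 / 24 := by
            rw [Real.sqrt_le_left (by norm_num)]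
            exact h2
          linarith
        simp only [hH]
        rw [SS_one g hlt (hle.trans hy), SS_one g hlt hle]
    have key := (hSUB T b f u v hS s m (loc s m (ε / 2) H) hs hsm.le hm hT4).2 ?_
    · rw [src0 (fun r x h1 h2 => (hz r x h1 h2).1), add_zero] at key
      have e1 : ∀ x, loc s m (ε / 2) H m x = Gp (x 0 / (3 * Real.sqrt ε)) := by
        intro x
        rw [loc_in ⟨by linarith, by linarith⟩]
        simp only [hH, SS]
        congr 4
        ring
      have e2 : ∀ x, loc s m (ε / 2) H s x = Gp (x 0 / (3 * Real.sqrt (m + ε - s))) := by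
        intro x
        rw [loc_in ⟨by linarith, by linarith⟩]
        simp only [hH, SS]
      simp only [e1, e2] at key
      refine key.trans ?_
      rw [← integral_const_mul]
      have meas1 : ∀ K : ℝ, Measurable (fun x : Fin 2 → ℝ => Gp (x 0 / K)) := meas1 g
      have bd1 : ∀ K : ℝ, 0 ≤ K → ∀ x ∈ Q4, |Gp (x 0 / K)| ≤ 1 := by
        intro K hK x hx
        have : 0 ≤ x 0 / K := div_nonneg hx.1.le hK
        rw [abs_of_nonneg (g.nn _ this)]
        exact g.le1 _ this
      apply setIntegral_mono_on (u_int hFREG hS s (meas1 _) (bd1 _ (by positivity)))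
        ((u_int hFREG hS s (meas1 _) (bd1 _ hR.le)).const_mul c) Q4m
      intro x hx
      have hu : 0 ≤ u s x := hS.up s x (by linarith) hx.1.le hx.2.1.le
      have hx0 : 0 < x 0 := hx.1
      have h1 : Gp (x 0 / (3 * Real.sqrt (m + ε - s))) ≤ c * Gp (x 0 / R) := by
        refine le_trans (g.mono _ (c * (x 0 / R)) (by positivity) ?_)
          (g.sc c _ hc (by positivity))
        have hq : 0 < Real.sqrt (m - s) := Real.sqrt_pos.2 (by linarith)
        have hq2 : Real.sqrt (m - s) ≤ Real.sqrt (m + ε - s) := Real.sqrt_le_sqrt (by linarith)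
        have hq3 : 0 < Real.sqrt (m + ε - s) := lt_of_lt_of_le hq hq2
        rw [mul_div_assoc', div_le_div_iff₀ (by positivity) hR]
        have : R ≤ c * (3 * Real.sqrt (m + ε - s)) := by
          refine hRc.trans ?_
          have : 0 < c := by linarith
          nlinarith
        nlinarith
      calc u s x * Gp (x 0 / (3 * Real.sqrt (m + ε - s))) ≤ u s x * (c * Gp (x 0 / R)) :=
            mul_le_mul_of_nonneg_left h1 hu
        _ = c * (u s x * Gp (x 0 / R)) := by ring
    · intro r x hr1 hr2 hx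
      rw [loc_dt (by linarith) hr1 hr2, loc_lap (by linarith) hr1 hr2 (cd_div g _)]
      have hb : ∑ i, b r x i * pd i (loc s m (ε / 2) H r) x = 0 := by
        apply Finset.sum_eq_zero
        intro i _
        rw [(hz r x hr1 hr2).2 i, zero_mul]
      rw [hb, add_zero]
      exact SS_op g (by linarith) hx.1.le
  -- limit
  obtain ⟨humeas, B, hB⟩ := u_meas hFREG hS m
  have hlim : Tendsto (fun n : ℕ => ∫ x in Q4, u m x * Gp (x 0 / (3 * Real.sqrt (1 / ((n : ℝ) + 1)))))
      atTop (𝓝 (∫ x in Q4, u m x)) := by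
    apply tendsto_integral_of_dominated_convergence (fun x => |B|)
    · intro n
      exact (humeas.mul (meas1 g _)).aestronglyMeasurable
    · exact integrableOn_const Q4fin.ne
    · intro n
      rw [ae_restrict_iff' Q4m]
      refine Filter.Eventually.of_forall (fun x hx => ?_)
      have h0 : 0 ≤ x 0 / (3 * Real.sqrt (1 / ((n : ℝ) + 1))) := div_nonneg hx.1.le (by positivity)
      rw [Real.norm_eq_abs, abs_mul, abs_of_nonneg (g.nn _ h0)]
      have h1 := g.le1 _ h0
      have h2 := g.nn _ h0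
      have h3 := (hB x).trans (le_abs_self B)
      nlinarith [abs_nonneg (u m x)]
    · rw [ae_restrict_iff' Q4m]
      refine Filter.Eventually.of_forall (fun x hx => ?_)
      have hx0 : 0 < x 0 := hx.1
      have hev : ∀ᶠ n : ℕ in atTop, u m x * Gp (x 0 / (3 * Real.sqrt (1 / ((n : ℝ) + 1)))) = u m x := by
        have ht : Tendsto (fun n : ℕ => Real.sqrt (1 / ((n : ℝ) + 1))) atTop (𝓝 0) := by
          have := (tendsto_one_div_add_atTop_nhds_zero_nat (𝕜 := ℝ)).sqrt
          simpa using this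
        have h2 := ht.eventually (gt_mem_nhds (show (0 : ℝ) < x 0 / 3 by positivity))
        filter_upwards [h2] with n hn
        have hq : 0 < Real.sqrt (1 / ((n : ℝ) + 1)) := Real.sqrt_pos.2 (by positivity)
        rw [g.one _ (by rw [le_div_iff₀ (by positivity)]; linarith), mul_one]
      exact tendsto_const_nhds.congr' (hev.mono fun n hn => hn.symm)
  refine le_of_tendsto hlim ?_
  have ht := (tendsto_one_div_add_atTop_nhds_zero_nat (𝕜 := ℝ)).eventually
    (gt_mem_nhds (show (0 : ℝ) < (1 / 64 - 9 * (m - s)) / 36 by linarith))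
  filter_upwards [ht] with n hn
  exact hstep _ (by positivity) hn

lemma RR_facts {ρ : ℝ} (hρ : 0 < ρ) (h : RR ρ ≤ 1 / 8) : 0 < RR ρ ∧ 24 * ρ ≤ 1 / 64 := by
  have h1 : 0 < RR ρ := Real.sqrt_pos.2 (by linarith)
  refine ⟨h1, ?_⟩
  have h2 : RR ρ ^ 2 = 24 * ρ := Real.sq_sqrt (by linarith)
  nlinarith

theorem main (hSUB : S_SUB) (hGP : S_GP) (hFREG : S_FREG) : S_RE1 := by
  intro T b f u v hS s t hs hst ht hR hz
  obtain ⟨hR0, hR1⟩ := RR_facts (by linarith : 0 < t - s) hR
  have g := gf hGP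
  constructor
  · apply sup_bound hSUB g hFREG hS hs hst ht (by linarith) hz hR0 (by norm_num)
    unfold RR
    have h1 : Real.sqrt (24 * (t - s)) ≤ Real.sqrt (6 ^ 2 * (t - s)) :=
      Real.sqrt_le_sqrt (by nlinarith)
    rw [Real.sqrt_mul (by norm_num : (0:ℝ) ≤ 6 ^ 2), Real.sqrt_sq (by norm_num)] at h1
    linarith
  · apply sup_bound hSUB g hFREG hS hs (by linarith) (by linarith) (by linarith)
      (fun r x h1 h2 => hz r x h1 (by linarith)) hR0 (by norm_num)
    unfold RR
    have h1 : Real.sqrt (24 * (t - s)) ≤ Real.sqrt (9 ^ 2 * ((s + t) / 2 - s)) :=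
      Real.sqrt_le_sqrt (by nlinarith)
    rw [Real.sqrt_mul (by norm_num : (0:ℝ) ≤ 9 ^ 2), Real.sqrt_sq (by norm_num)] at h1
    linarith

end

end Pool.Agent.Helper87.ND.RE1
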