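import Pool.Agent.Helper87.ND.RE1

/-!
# ND2, part RE2
-/

namespace Pool.Agent.Helper87.ND.RE2
open Pool.Agent.Helper28.ND Pool.Agent.Helper87.ND.RE
open MeasureTheory Set Filter Topology

noncomputable section

/-- the subsolution -/
def HH (t R r y : ℝ) : ℝ :=
  Real.exp (12 * (r - t) / R ^ 2) * Gp (y / R) - (3 / 10) * SS (t + R ^ 2 / 900) r y

lemma HH_cd (g : GF) {t R b c : ℝ} (h : c ≤ t + R ^ 2 / 900) :
    ContDiffOn ℝ 2 (fun z : ℝ × ℝ => HH t R z.1 z.2) (Ioo b c ×ˢ univ) := by
  unfold HH
  apply ContDiffOn.sub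
  · apply ContDiff.contDiffOn
    apply ContDiff.mul
    · apply ContDiff.exp
      exact ((contDiff_const.mul (contDiff_fst.sub contDiff_const)).div_const _)
    · exact g.cd.comp (contDiff_snd.div_const R)
  · exact contDiffOn_const.mul (SS_cd g h)

lemma SS_cdy (g : GF) (a r : ℝ) : ContDiff ℝ 2 (SS a r) := cd_div g _

lemma HH_cdy (g : GF) (t R r : ℝ) : ContDiff ℝ 2 (HH t R r) := by
  unfold HH
  exact (contDiff_const.mul (cd_div g R)).sub (contDiff_const.mul (SS_cdy g _ r))

lemma HH_dr (g : GF) {t R r : ℝ} (h : r < t + R ^ 2 / 900) (y : ℝ) :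
    deriv (fun r => HH t R r y) r = 12 / R ^ 2 * Real.exp (12 * (r - t) / R ^ 2) * Gp (y / R)
      - (3 / 10) * deriv (fun r => SS (t + R ^ 2 / 900) r y) r := by
  have h1 : HasDerivAt (fun r : ℝ => 12 * (r - t) / R ^ 2) (12 / R ^ 2) r := by
    have := (((hasDerivAt_id r).sub_const t).const_mul 12).div_const (R ^ 2)
    simpa using this
  have h2 := (h1.exp.mul_const (Gp (y / R))).sub
    (((SS_dr g h y).differentiableAt.hasDerivAt).const_mul (3 / 10))
  have h3 : HasDerivAt (fun r => HH t R r y) _ r := h2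
  rw [h3.deriv]
  ring

lemma HH_dyy (g : GF) (t R r y : ℝ) :
    deriv (deriv (HH t R r)) y = Real.exp (12 * (r - t) / R ^ 2) *
      (deriv (deriv Gp) (y / R) / R ^ 2) - (3 / 10) * deriv (deriv (SS (t + R ^ 2 / 900) r)) y := by
  have hA : ContDiff ℝ 2 (fun y => Gp (y / R)) := cd_div g R
  have hB : ContDiff ℝ 2 (SS (t + R ^ 2 / 900) r) := SS_cdy g _ r
  have e1 : deriv (HH t R r) = fun y => Real.exp (12 * (r - t) / R ^ 2) *
      deriv (fun y => Gp (y / R)) y - (3 / 10) * deriv (SS (t + R ^ 2 / 900) r) y := by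
    funext z
    have h1 := (((hA.differentiable (by norm_num)) z).hasDerivAt.const_mul
      (Real.exp (12 * (r - t) / R ^ 2))).sub
      (((hB.differentiable (by norm_num)) z).hasDerivAt.const_mul (3 / 10))
    have h3 : HasDerivAt (HH t R r) _ z := h1
    rw [h3.deriv]
  rw [e1]
  have h1 := (((diff_deriv hA) y).hasDerivAt.const_mul
      (Real.exp (12 * (r - t) / R ^ 2))).sub
      (((diff_deriv hB) y).hasDerivAt.const_mul (3 / 10))
  have h3 : HasDerivAt (fun y => Real.exp (12 * (r - t) / R ^ 2) *
      deriv (fun y => Gp (y / R)) y - (3 / 10) * deriv (SS (t + R ^ 2 / 900) r) y) _ y := h1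
  rw [h3.deriv, dd_div g]

lemma HH_op (g : GF) {t R r : ℝ} (hR : 0 < R) (h : r < t + R ^ 2 / 900) {y : ℝ} (hy : 0 ≤ y) :
    0 ≤ deriv (fun r => HH t R r y) r + deriv (deriv (HH t R r)) y := by
  rw [HH_dr g h, HH_dyy g]
  have h1 := SS_op g h hy
  have h2 := g.d2 (y / R) (by positivity)
  have h3 := Real.exp_pos (12 * (r - t) / R ^ 2)
  have h4 : 0 ≤ 12 / R ^ 2 * Real.exp (12 * (r - t) / R ^ 2) * Gp (y / R)
      + Real.exp (12 * (r - t) / R ^ 2) * (deriv (deriv Gp) (y / R) / R ^ 2) := by
    have : 12 / R ^ 2 * Real.exp (12 * (r - t) / R ^ 2) * Gp (y / R)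
      + Real.exp (12 * (r - t) / R ^ 2) * (deriv (deriv Gp) (y / R) / R ^ 2)
      = Real.exp (12 * (r - t) / R ^ 2) * ((12 * Gp (y / R) + deriv (deriv Gp) (y / R)) / R ^ 2) := by
      ring
    rw [this]
    apply mul_nonneg h3.le
    apply div_nonneg (by linarith) (by positivity)
  linarith

theorem main (hSUB : S_SUB) (hGP : S_GP) (hFREG : S_FREG) : S_RE2 := by
  intro T b f u v hS s t hs hst ht hR8 hz
  obtain ⟨hR, hR1⟩ := RE1.RR_facts (by linarith : 0 < t - s) hR8
  have g := gf hGP
  have hRsq : RR (t - s) ^ 2 = 24 * (t - s) := Real.sq_sqrt (by linarith)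
  set R := RR (t - s) with hRdef
  have hR900 : 0 < R ^ 2 / 900 := by positivity
  -- test function
  have hT4 : T4L s t (loc s t (R ^ 2 / 1800) (HH t R)) := by
    apply loc_T4L (by positivity)
    · exact HH_cd g (by linarith)
    · intro r _ _
      simp only [HH, SS, zero_div]
      rw [g.z]; ring
    · intro r hr1 hr2 y hy
      have hlt : r < t + R ^ 2 / 900 := by linarith
      have hle : 3 * Real.sqrt (t + R ^ 2 / 900 - r) ≤ 1 / 8 := by
        have h1 : 0 < t + R ^ 2 / 900 - r := by linarith
        have h2 : t + R ^ 2 / 900 - r ≤ (1 / 24) ^ 2 := by nlinarith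
        have h3 : Real.sqrt (t + R ^ 2 / 900 - r) ≤ 1 / 24 := by
          rw [Real.sqrt_le_left (by norm_num)]
          exact h2
        linarith
      have e1 : ∀ z, 1 / 8 ≤ z → Gp (z / R) = 1 := by
        intro z hz
        apply g.one
        rw [le_div_iff₀ hR]; linarith
      simp only [HH]
      rw [SS_one g hlt (hle.trans hy), SS_one g hlt hle, e1 y hy, e1 (1 / 8) le_rfl]
  have key := (hSUB T b f u v hS s t (loc s t (R ^ 2 / 1800) (HH t R)) hs hst.le ht hT4).1 ?_
  · rw [src0 (fun r x h1 h2 => (hz r x h1 h2).1), add_zero] at key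
    have hδ : 0 < R ^ 2 / 1800 := by positivity
    have e1 : ∀ x, loc s t (R ^ 2 / 1800) (HH t R) t x
        = Gp (x 0 / R) - (3 / 10) * Gp (10 * (x 0 / R)) := by
      intro x
      rw [loc_in ⟨by linarith, by linarith⟩]
      simp only [HH, SS]
      have h1 : t + R ^ 2 / 900 - t = (R / 30) ^ 2 := by ring
      rw [h1, Real.sqrt_sq (by positivity)]
      have h2 : x 0 / (3 * (R / 30)) = 10 * (x 0 / R) := by
        field_simp; ring
      rw [h2]
      simp
    have e2 : ∀ x, loc s t (R ^ 2 / 1800) (HH t R) s x = Real.exp (-(1 / 2)) * Gp (x 0 / R)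
        - (3 / 10) * Gp (x 0 / (3 * Real.sqrt (t + R ^ 2 / 900 - s))) := by
      intro x
      rw [loc_in ⟨by linarith, by linarith⟩]
      simp only [HH, SS]
      have h1 : 12 * (s - t) / R ^ 2 = -(1 / 2) := by
        rw [hRsq]
        have : t - s ≠ 0 := by linarith
        field_simp
        ring
      rw [h1]
    simp only [e1, e2] at key
    have hexp : (6 : ℝ) / 10 ≤ Real.exp (-(1 / 2)) := by
      have h1 : Real.exp 1 < 2.7182818286 := Real.exp_one_lt_d9
      have h2 : Real.exp (1 / 2) ^ 2 = Real.exp 1 := by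
        rw [← Real.exp_nat_mul]; norm_num
      have h3 : 0 < Real.exp (1 / 2) := Real.exp_pos _
      have h4 : Real.exp (1 / 2) ≤ 10 / 6 := by nlinarith
      rw [Real.exp_neg]
      rw [le_inv_comm₀ (by norm_num) h3]
      linarith
    -- lower bound of the initial value
    have hlow : (1 / 10) * ∫ x in Q4, u s x * Gp (x 0 / R)
        ≤ ∫ x in Q4, u s x * (Real.exp (-(1 / 2)) * Gp (x 0 / R)
          - (3 / 10) * Gp (x 0 / (3 * Real.sqrt (t + R ^ 2 / 900 - s)))) := by
      rw [← integral_const_mul]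
      have bd1 : ∀ K : ℝ, 0 ≤ K → ∀ x ∈ Q4, |Gp (x 0 / K)| ≤ 1 := by
        intro K hK x hx
        have : 0 ≤ x 0 / K := div_nonneg hx.1.le hK
        rw [abs_of_nonneg (g.nn _ this)]
        exact g.le1 _ this
      apply setIntegral_mono_on ((u_int hFREG hS s (meas1 g _) (bd1 _ hR.le)).const_mul _) ?_ Q4m
      · intro x hx
        have hu : 0 ≤ u s x := hS.up s x (by linarith) hx.1.le hx.2.1.le
        have hx0 : 0 < x 0 := hx.1
        have hy0 : 0 < x 0 / R := by positivity
        have h1 : Gp (x 0 / (3 * Real.sqrt (t + R ^ 2 / 900 - s))) ≤ 5 / 3 * Gp (x 0 / R) := by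
          have hq : 0 < Real.sqrt (t + R ^ 2 / 900 - s) := Real.sqrt_pos.2 (by linarith)
          refine le_trans (g.mono _ (5 / 3 * (x 0 / R)) (by positivity) ?_)
            (g.sc _ _ (by norm_num) hy0.le)
          rw [mul_div_assoc', div_le_div_iff₀ (by positivity) hR]
          have hq2 : R ≤ 5 * Real.sqrt (t + R ^ 2 / 900 - s) := by
            have h5 : 5 * Real.sqrt (t + R ^ 2 / 900 - s)
                = Real.sqrt (5 ^ 2 * (t + R ^ 2 / 900 - s)) := by
              rw [Real.sqrt_mul (by norm_num : (0:ℝ) ≤ 5 ^ 2), Real.sqrt_sq (by norm_num)]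
            rw [h5]
            apply Real.le_sqrt_of_sq_le
            nlinarith
          nlinarith
        have h2 : (1 / 10) * Gp (x 0 / R) ≤ Real.exp (-(1 / 2)) * Gp (x 0 / R)
          - (3 / 10) * Gp (x 0 / (3 * Real.sqrt (t + R ^ 2 / 900 - s))) := by
          have h3 := g.nn _ hy0.le
          nlinarith
        calc 1 / 10 * (u s x * Gp (x 0 / R)) = u s x * (1 / 10 * Gp (x 0 / R)) := by ring
          _ ≤ _ := mul_le_mul_of_nonneg_left h2 hu
      · apply u_int hFREG hS s (C := Real.exp (-(1 / 2)) * 1 + (3 / 10) * 1)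
        · exact ((meas1 g _).const_mul _).sub ((meas1 g _).const_mul _)
        · intro x hx
          refine (abs_sub _ _).trans ?_
          rw [abs_mul, abs_mul, abs_of_pos (Real.exp_pos _), abs_of_pos (by norm_num : (0:ℝ) < 3 / 10)]
          have h1 := bd1 R hR.le x hx
          have h2 := bd1 (3 * Real.sqrt (t + R ^ 2 / 900 - s)) (by positivity) x hx
          have h3 := Real.exp_pos (-(1 / 2) : ℝ)
          nlinarith
    -- upper bound of the final value
    have hup : ∫ x in Q4, u t x * (Gp (x 0 / R) - (3 / 10) * Gp (10 * (x 0 / R)))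
        ≤ ∫ x in Q4, (if 15 / 100 * R ≤ x 0 then u t x else 0) := by
      have hm0 : Measurable (fun x : Fin 2 → ℝ => x 0) := measurable_pi_apply 0
      have hms : MeasurableSet {x : Fin 2 → ℝ | 15 / 100 * R ≤ x 0} :=
        measurableSet_le measurable_const hm0
      have erhs : ∀ x : Fin 2 → ℝ, (if 15 / 100 * R ≤ x 0 then u t x else 0)
          = u t x * (if 15 / 100 * R ≤ x 0 then 1 else 0) := by
        intro x; split_ifs <;> simp
      simp only [erhs]
      apply setIntegral_mono_on ?_ ?_ Q4m
      · intro x hx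
        have hu : 0 ≤ u t x := hS.up t x ht hx.1.le hx.2.1.le
        have hx0 : 0 < x 0 := hx.1
        have hy0 : 0 < x 0 / R := by positivity
        apply mul_le_mul_of_nonneg_left _ hu
        split_ifs with hc
        · have h1 := g.le1 _ hy0.le
          have h2 := g.nn (10 * (x 0 / R)) (by positivity)
          linarith
        · have hc2 : x 0 / R < 15 / 100 := by
            rw [div_lt_iff₀ hR]; push Not at hc; linarith
          have h1 := g.le2 _ hy0.le
          rcases le_total (10 * (x 0 / R)) 1 with h3 | h3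
          · have h4 := g.ge _ (by positivity) h3
            linarith
          · have h4 := g.one _ h3
            linarith
      · apply u_int hFREG hS t (C := 2)
        · apply (meas1 g _).sub
          apply Measurable.const_mul
          exact g.cd.continuous.measurable.comp ((hm0.div_const R).const_mul 10)
        · intro x hx
          have hx0 : 0 < x 0 := hx.1
          have hy0 : 0 < x 0 / R := by positivity
          have h1 := g.le1 _ hy0.le
          have h2 := g.nn _ hy0.le
          have h3 := g.le1 (10 * (x 0 / R)) (by positivity)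
          have h4 := g.nn (10 * (x 0 / R)) (by positivity)
          rw [abs_le]
          constructor <;> linarith
      · apply u_int hFREG hS t (C := 1)
        · exact Measurable.ite hms measurable_const measurable_const
        · intro x hx
          split_ifs <;> simp
    exact hlow.trans (key.trans hup)
  · intro r x hr1 hr2 hx
    rw [loc_dt (by positivity) hr1 hr2, loc_lap (by positivity) hr1 hr2 (HH_cdy g _ _ _)]
    have hb : ∑ i, b r x i * pd i (loc s t (R ^ 2 / 1800) (HH t R) r) x = 0 := by
      apply Finset.sum_eq_zero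
      intro i _
      rw [(hz r x hr1 hr2).2 i, zero_mul]
    rw [hb, add_zero]
    exact HH_op g hR (by linarith) hx.1.le

end

end Pool.Agent.Helper87.ND.RE2
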