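import Pool.Agent.Helper28.ND.Spec3

/-!
# Tools for RE1 and RE2
-/

namespace Pool.Agent.Helper87.ND.RE
open Pool.Agent.Helper28.ND
open MeasureTheory Set Filter Topology

noncomputable section

lemma pd_fst {F : ℝ → ℝ} (hF : Differentiable ℝ F) (i : Fin 2) (x : Fin 2 → ℝ) :
    pd i (fun x : Fin 2 → ℝ => F (x 0)) x = if i = 0 then deriv F (x 0) else 0 := by
  unfold pd
  have h1 : HasFDerivAt (fun x : Fin 2 → ℝ => x 0)
      (ContinuousLinearMap.proj (R := ℝ) (φ := fun _ : Fin 2 => ℝ) 0) x :=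
    (ContinuousLinearMap.proj (R := ℝ) (φ := fun _ : Fin 2 => ℝ) 0).hasFDerivAt
  have h2 := (hF (x 0)).hasDerivAt.comp_hasFDerivAt x h1
  have h3 : HasFDerivAt (fun x : Fin 2 → ℝ => F (x 0))
    (deriv F (x 0) • (ContinuousLinearMap.proj (R := ℝ) (φ := fun _ : Fin 2 => ℝ) 0)) x := h2
  rw [h3.fderiv]
  fin_cases i <;> simp

lemma diff_deriv {F : ℝ → ℝ} (hF : ContDiff ℝ 2 F) : Differentiable ℝ (deriv F) := by
  have h : ContDiff ℝ (1 + 1) F := by
    have : (1 + 1 : WithTop ℕ∞) = 2 := by norm_num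
    rw [this]; exact hF
  exact ((contDiff_succ_iff_deriv.1 h).2.2).differentiable (by norm_num)

lemma lap_fst {F : ℝ → ℝ} (hF : ContDiff ℝ 2 F) (x : Fin 2 → ℝ) :
    lap (fun x : Fin 2 → ℝ => F (x 0)) x = deriv (deriv F) (x 0) := by
  unfold lap
  have hd : Differentiable ℝ F := hF.differentiable (by norm_num)
  have hd' : Differentiable ℝ (deriv F) := diff_deriv hF
  rw [Fin.sum_univ_two]
  have e0 : pd 0 (fun x : Fin 2 → ℝ => F (x 0)) = fun x => deriv F (x 0) := by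
    funext y; rw [pd_fst hd]; simp
  have e1 : pd 1 (fun x : Fin 2 → ℝ => F (x 0)) = fun x => (fun _ => (0:ℝ)) (x 0) := by
    funext y; rw [pd_fst hd]; simp
  rw [e0, e1, pd_fst hd', pd_fst (differentiable_const 0)]
  simp

/-- localized test function -/
def loc (s t δ : ℝ) (H : ℝ → ℝ → ℝ) (r : ℝ) (x : Fin 2 → ℝ) : ℝ :=
  if s - δ < r ∧ r < t + δ then H r (x 0) else 0

lemma loc_in {s t δ : ℝ} {H : ℝ → ℝ → ℝ} {r : ℝ} (h : s - δ < r ∧ r < t + δ) (x : Fin 2 → ℝ) :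
    loc s t δ H r x = H r (x 0) := by
  unfold loc; rw [if_pos h]

lemma loc_T4L {s t δ : ℝ} (hδ : 0 < δ) {H : ℝ → ℝ → ℝ}
    (hs : ContDiffOn ℝ 2 (fun z : ℝ × ℝ => H z.1 z.2) (Ioo (s - δ) (t + δ) ×ˢ univ))
    (h0 : ∀ r, s - δ < r → r < t + δ → H r 0 = 0)
    (h8 : ∀ r, s - δ < r → r < t + δ → ∀ y, 1 / 8 ≤ y → H r y = H r (1 / 8)) :
    T4L s t (loc s t δ H) := by
  refine ⟨⟨δ, hδ, ?_⟩, ?_, ?_, ?_⟩
  · have h1 : ContDiffOn ℝ 2 ((fun z : ℝ × ℝ => H z.1 z.2) ∘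
        (fun z : ℝ × (Fin 2 → ℝ) => (z.1, z.2 0))) (Ioo (s - δ) (t + δ) ×ˢ univ) := by
      apply hs.comp
      · apply ContDiff.contDiffOn
        apply contDiff_fst.prodMk
        exact (contDiff_apply ℝ ℝ (0 : Fin 2)).comp contDiff_snd
      · intro z hz
        exact ⟨hz.1, mem_univ _⟩
    apply h1.congr
    intro z hz
    show loc s t δ H z.1 z.2 = _
    rw [loc_in ⟨hz.1.1, hz.1.2⟩]
    rfl
  · intro r x
    unfold loc
    simp
  · intro r x hx
    unfold loc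
    split_ifs with h
    · rw [hx]; exact h0 r h.1 h.2
    · rfl
  · intro r x hx
    unfold loc
    split_ifs with h
    · rw [h8 r h.1 h.2 _ hx]
      simp
    · rfl

lemma loc_dt {s t δ : ℝ} (hδ : 0 < δ) {H : ℝ → ℝ → ℝ} {r : ℝ} (hr : s < r) (hr' : r < t)
    (x : Fin 2 → ℝ) : dt (loc s t δ H) r x = deriv (fun r => H r (x 0)) r := by
  unfold dt
  apply Filter.EventuallyEq.deriv_eq
  have : Ioo (s - δ) (t + δ) ∈ 𝓝 r := Ioo_mem_nhds (by linarith) (by linarith)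
  filter_upwards [this] with q hq
  exact loc_in ⟨hq.1, hq.2⟩ x

lemma loc_lap {s t δ : ℝ} (hδ : 0 < δ) {H : ℝ → ℝ → ℝ} {r : ℝ} (hr : s < r) (hr' : r < t)
    (hH : ContDiff ℝ 2 (H r)) (x : Fin 2 → ℝ) :
    lap (loc s t δ H r) x = deriv (deriv (H r)) (x 0) := by
  have : loc s t δ H r = fun x => H r (x 0) := by
    funext y; exact loc_in ⟨by linarith, by linarith⟩ y
  rw [this, lap_fst hH]

/-- facts on `Gp` -/
structure GF : Prop where
  cd : ContDiff ℝ 2 Gp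
  z : Gp 0 = 0
  one : ∀ y, 1 ≤ y → Gp y = 1
  nn : ∀ y, 0 ≤ y → 0 ≤ Gp y
  le1 : ∀ y, 0 ≤ y → Gp y ≤ 1
  le2 : ∀ y, 0 ≤ y → Gp y ≤ 2 * y
  ge : ∀ y, 0 ≤ y → y ≤ 1 → y ≤ Gp y
  mono : ∀ y z, 0 ≤ y → y ≤ z → Gp y ≤ Gp z
  sc : ∀ l y, 1 ≤ l → 0 ≤ y → Gp (l * y) ≤ l * Gp y
  d2 : ∀ y, 0 ≤ y → -12 * Gp y ≤ deriv (deriv Gp) y
  d3 : ∀ y, 0 ≤ y → deriv (deriv Gp) y / 9 + y / 2 * deriv Gp y ≤ 0

lemma gf (h : S_GP) : GF := by
  obtain ⟨h1, -, -, ⟨h4, h5, h6, h7, h8, h9, h10⟩, -, -⟩ := h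
  exact ⟨h1, h4, h5, fun y hy => (h6 y hy).1, fun y hy => (h6 y hy).2.1,
    fun y hy => (h6 y hy).2.2, h7, h8, h9, fun y hy => (h10 y hy).2.1, fun y hy => (h10 y hy).2.2⟩

/-- the self-similar supersolution -/
def SS (a r y : ℝ) : ℝ := Gp (y / (3 * Real.sqrt (a - r)))

lemma SS_cd (g : GF) {a b c : ℝ} (h : c ≤ a) :
    ContDiffOn ℝ 2 (fun z : ℝ × ℝ => SS a z.1 z.2) (Ioo b c ×ˢ univ) := by
  unfold SS
  apply g.cd.comp_contDiffOn
  apply ContDiffOn.div
  · exact contDiff_snd.contDiffOn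
  · apply ContDiffOn.mul contDiffOn_const
    apply ContDiffOn.sqrt
    · exact (contDiff_const.sub contDiff_fst).contDiffOn
    · intro z hz
      have := hz.1.2
      have h2 : 0 < a - z.1 := by linarith
      exact h2.ne'
  · intro z hz
    have := hz.1.2
    have h2 : 0 < a - z.1 := by linarith
    have := Real.sqrt_pos.2 h2
    positivity

lemma cd_div (g : GF) (K : ℝ) : ContDiff ℝ 2 (fun y => Gp (y / K)) := by
  apply g.cd.comp
  exact contDiff_id.div_const K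

lemma dd_div (g : GF) (K : ℝ) (y : ℝ) :
    deriv (deriv (fun y => Gp (y / K))) y = deriv (deriv Gp) (y / K) / K ^ 2 := by
  have hd : Differentiable ℝ Gp := g.cd.differentiable (by norm_num)
  have hd' : Differentiable ℝ (deriv Gp) := diff_deriv g.cd
  have e1 : deriv (fun y => Gp (y / K)) = fun y => deriv Gp (y / K) / K := by
    funext y
    have h1 : HasDerivAt (fun y : ℝ => y / K) (1 / K) y := (hasDerivAt_id y).div_const K
    have h2 := (hd (y / K)).hasDerivAt.comp y h1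
    have h3 : HasDerivAt (fun y => Gp (y / K)) (deriv Gp (y / K) * (1 / K)) y := h2
    rw [h3.deriv]; ring
  rw [e1]
  have h1 : HasDerivAt (fun y : ℝ => y / K) (1 / K) y := (hasDerivAt_id y).div_const K
  have h2 := ((hd' (y / K)).hasDerivAt.comp y h1).div_const K
  have h3 : HasDerivAt (fun y => deriv Gp (y / K) / K) (deriv (deriv Gp) (y / K) * (1 / K) / K) y :=
    h2
  rw [h3.deriv]
  by_cases hK : K = 0
  · subst hK; simp
  · field_simp

lemma SS_dr (g : GF) {a r : ℝ} (h : r < a) (y : ℝ) :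
    HasDerivAt (fun r => SS a r y) (deriv Gp (y / (3 * Real.sqrt (a - r))) *
      (y / (3 * Real.sqrt (a - r)) / (2 * (a - r)))) r := by
  have hp : 0 < a - r := by linarith
  have hq := Real.sqrt_pos.2 hp
  have hs : Real.sqrt (a - r) ^ 2 = a - r := Real.sq_sqrt hp.le
  have h1 : HasDerivAt (fun r => Real.sqrt (a - r)) ((0 - 1) / (2 * Real.sqrt (a - r))) r := by
    have := ((hasDerivAt_const r a).sub (hasDerivAt_id r)).sqrt (by simpa using hp.ne')
    simpa using this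
  have h2 := (hasDerivAt_const r y).div (h1.const_mul 3) (by positivity)
  have hd : Differentiable ℝ Gp := g.cd.differentiable (by norm_num)
  have h3 := (hd (y / (3 * Real.sqrt (a - r)))).hasDerivAt.comp r h2
  have h4 : HasDerivAt (fun r => SS a r y) _ r := h3
  convert h4 using 1
  congr 1
  have hne : Real.sqrt (a - r) ≠ 0 := hq.ne'
  rw [← hs]
  rw [Real.sqrt_sq hq.le]
  field_simp
  ring

lemma SS_op (g : GF) {a r : ℝ} (h : r < a) {y : ℝ} (hy : 0 ≤ y) :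
    deriv (fun r => SS a r y) r + deriv (deriv (SS a r)) y ≤ 0 := by
  have hp : 0 < a - r := by linarith
  have hq := Real.sqrt_pos.2 hp
  have hs : Real.sqrt (a - r) ^ 2 = a - r := Real.sq_sqrt hp.le
  rw [(SS_dr g h y).deriv]
  have e : SS a r = fun y => Gp (y / (3 * Real.sqrt (a - r))) := rfl
  rw [e, dd_div g]
  set Y := y / (3 * Real.sqrt (a - r)) with hY
  have hY0 : 0 ≤ Y := by positivity
  have key := g.d3 Y hY0
  have h9 : (3 * Real.sqrt (a - r)) ^ 2 = 9 * (a - r) := by rw [mul_pow, hs]; ring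
  rw [h9]
  have : deriv Gp Y * (Y / (2 * (a - r))) + deriv (deriv Gp) Y / (9 * (a - r))
      = (deriv (deriv Gp) Y / 9 + Y / 2 * deriv Gp Y) / (a - r) := by
    field_simp
    ring
  rw [this]
  exact div_nonpos_of_nonpos_of_nonneg key hp.le

lemma SS_one (g : GF) {a r y : ℝ} (h : r < a) (h' : 3 * Real.sqrt (a - r) ≤ y) : SS a r y = 1 := by
  apply g.one
  have hq := Real.sqrt_pos.2 (show 0 < a - r by linarith)
  rw [le_div_iff₀ (by positivity)]
  linarith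

lemma Q4m : MeasurableSet Q4 := by
  unfold Q4
  have h0 : Measurable (fun x : Fin 2 → ℝ => x 0) := measurable_pi_apply 0
  have h1 : Measurable (fun x : Fin 2 → ℝ => x 1) := measurable_pi_apply 1
  exact ((measurableSet_lt measurable_const h0).inter
    ((measurableSet_lt h0 measurable_const).inter ((measurableSet_lt measurable_const h1).inter
      (measurableSet_le h1 measurable_const))))

lemma Q4fin : volume Q4 < ⊤ := by
  have : Q4 ⊆ Set.pi Set.univ (fun _ : Fin 2 => Set.Icc (0 : ℝ) 1) := by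
    intro x hx i _
    fin_cases i
    · exact ⟨hx.1.le, by have := hx.2.1; simp only [Fin.zero_eta]; linarith⟩
    · exact ⟨hx.2.2.1.le, hx.2.2.2⟩
  refine lt_of_le_of_lt (measure_mono this) ?_
  exact (isCompact_univ_pi (fun _ => isCompact_Icc)).measure_lt_top

lemma u_meas {T : ℝ} {b : ℝ → (Fin 2 → ℝ) → (Fin 2 → ℝ)} {f : ℝ → (Fin 2 → ℝ) → ℝ}
    {u : ℝ → (Fin 2 → ℝ) → ℝ} {v : ℝ → (Fin 2 → ℝ) → (Fin 2 → ℝ)} (hFREG : S_FREG)
    (hS : Sit T b f u v) (t : ℝ) : Measurable (u t) ∧ ∃ B : ℝ, ∀ x, |u t x| ≤ B := by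
  obtain ⟨h1, -⟩ := hFREG 2 T b f u v hS.hT hS.sol
  obtain ⟨B, hB⟩ := h1.bdd
  refine ⟨?_, B, fun x => hB t x⟩
  exact h1.meas.comp (measurable_const.prodMk measurable_id)

/-- integrability against bounded weights -/
lemma u_int {T : ℝ} {b : ℝ → (Fin 2 → ℝ) → (Fin 2 → ℝ)} {f : ℝ → (Fin 2 → ℝ) → ℝ}
    {u : ℝ → (Fin 2 → ℝ) → ℝ} {v : ℝ → (Fin 2 → ℝ) → (Fin 2 → ℝ)} (hFREG : S_FREG)
    (hS : Sit T b f u v) (t : ℝ) {w : (Fin 2 → ℝ) → ℝ} (hw : Measurable w) {C : ℝ}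
    (hC : ∀ x ∈ Q4, |w x| ≤ C) : IntegrableOn (fun x => u t x * w x) Q4 := by
  obtain ⟨hm, B, hB⟩ := u_meas hFREG hS t
  apply Measure.integrableOn_of_bounded (M := B * C) Q4fin.ne
  · exact (hm.mul hw).aestronglyMeasurable
  · rw [ae_restrict_iff' Q4m]
    refine Filter.Eventually.of_forall (fun x hx => ?_)
    rw [Real.norm_eq_abs, abs_mul]
    have := hB x
    exact mul_le_mul this (hC x hx) (abs_nonneg _) (le_trans (abs_nonneg _) this)

lemma meas1 (g : GF) (K : ℝ) : Measurable (fun x : Fin 2 → ℝ => Gp (x 0 / K)) := by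
  have h00 : Measurable (fun x : Fin 2 → ℝ => x 0) := measurable_pi_apply 0
  have h0 : Measurable (fun x : Fin 2 → ℝ => x 0 / K) := h00.div_const K
  exact g.cd.continuous.measurable.comp h0

/-- no source -/
lemma src0 {f g : ℝ → (Fin 2 → ℝ) → ℝ} {s t : ℝ}
    (hf : ∀ r x, s < r → r < t → f r x = 0) :
    ∫ r in Ioc s t, ∫ x in Q4, f r x * g r x = 0 := by
  rw [integral_Ioc_eq_integral_Ioo]
  rw [setIntegral_congr_fun (g := fun _ => (0:ℝ)) measurableSet_Ioo]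
  · simp
  · intro r hr
    simp only
    have : (fun x => f r x * g r x) = fun _ => 0 := by
      funext x; rw [hf r x hr.1 hr.2, zero_mul]
    rw [this]; simp

end

end Pool.Agent.Helper87.ND.RE
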